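import Pool.Agent.MP_d96af6_lc.Main

/-!
For every `n ≥ 2` the intermediate logic of `ω^n` is not locally finite.
-/

namespace Pool.Agent.Results.MP_d96af6_lc.NotLocallyFinite

open Pool.Agent.MP_d96af6_lc

/-- For `n ≥ 2` there are infinitely many formulas in two variables that are pairwise
non-equivalent modulo the intermediate logic of `ω^n` with the componentwise order. -/
theorem result (n : ℕ) (hn : 2 ≤ n) :
    ∃ φ : ℕ → Fm, (∀ i, VarsBelow 2 (φ i)) ∧
      ∀ i j, i ≠ j → Fm.biimp (φ i) (φ j) ∉ ILog (Fin n → ℕ) :=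
  ⟨lad, lad_vars, fun _ _ hij => main n hn hij⟩

end Pool.Agent.Results.MP_d96af6_lc.NotLocallyFinite
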